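import Mathlib
import Pool.Agent.Q167.HM.Main
set_option autoImplicit false

/-! Vector-valued estimates for one dyadic generation of strips. -/

namespace Pool.Agent.Q167.RS

open MeasureTheory Set Complex
open scoped ENNReal NNReal
open Pool.Agent.H728R3.SR (sg khinchine K1 semi Itv WW main_W)
open Pool.Agent.H147R3.PE (ext)
open Pool.Agent.Q167.HM

lemma l2_gen {ι : Type*} [Fintype ι] [DecidableEq ι] (z : ι → ℂ) :
    ∑ ε : ι → Bool, ‖∑ k, (sg (ε k) : ℂ) * z k‖ₑ ^ 2 =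
      2 ^ Fintype.card ι * ∑ k, ‖z k‖ₑ ^ 2 := by
  set e := Fintype.equivFin ι with he
  have h := l2_signs' (Fintype.card ι) (fun i => z (e.symm i))
  rw [← Equiv.sum_comp e.symm (fun k => ‖z k‖ₑ ^ 2), ← h]
  refine Fintype.sum_equiv (Equiv.arrowCongr e (Equiv.refl Bool)) _ _ (fun ε => ?_)
  congr 2
  rw [← Equiv.sum_comp e.symm]
  rfl

lemma inv_card {ι : Type*} [Fintype ι] [DecidableEq ι] :
    ∑ _ε : ι → Bool, ((2 : ℝ≥0∞) ^ Fintype.card ι)⁻¹ = 1 := by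
  rw [Finset.sum_const, nsmul_eq_mul]
  simp only [Finset.card_univ, Fintype.card_fun, Fintype.card_bool, Nat.cast_pow, Nat.cast_ofNat]
  exact ENNReal.mul_inv_cancel (by positivity) (by simp)

lemma kh_low_gen {ι : Type*} [Fintype ι] [DecidableEq ι] (z : ι → ℂ) (r : ℝ) (hr : 2 ≤ r) :
    (∑ k, ‖z k‖ₑ ^ 2) ^ (r / 2) ≤
      ((2 : ℝ≥0∞) ^ Fintype.card ι)⁻¹ *
        ∑ ε : ι → Bool, ‖∑ k, (sg (ε k) : ℂ) * z k‖ₑ ^ r := by
  have h := ENNReal.rpow_arith_mean_le_arith_mean_rpow Finset.univ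
    (fun _ : ι → Bool => ((2 : ℝ≥0∞) ^ Fintype.card ι)⁻¹)
    (fun ε => ‖∑ k, (sg (ε k) : ℂ) * z k‖ₑ ^ 2) inv_card (p := r / 2) (by linarith)
  rw [← Finset.mul_sum, ← Finset.mul_sum, l2_gen, ← mul_assoc,
    ENNReal.inv_mul_cancel (by positivity) (by simp), one_mul] at h
  refine h.trans (le_of_eq ?_)
  congr 1
  apply Finset.sum_congr rfl
  intro ε _
  rw [← ENNReal.rpow_natCast, ← ENNReal.rpow_mul]
  congr 1
  push_cast
  ring

/-- vector-valued convexity -/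
lemma vec_low {ι J : Type*} [Fintype ι] [DecidableEq ι] [Fintype J] (z : ι → J → ℂ) (p : ℝ)
    (hp : 1 ≤ p) :
    (∑ j, ∑ k, ‖z k j‖ₑ ^ 2) ^ p ≤
      ((2 : ℝ≥0∞) ^ Fintype.card ι)⁻¹ *
        ∑ ε : ι → Bool, (∑ j, ‖∑ k, (sg (ε k) : ℂ) * z k j‖ₑ ^ 2) ^ p := by
  have h := ENNReal.rpow_arith_mean_le_arith_mean_rpow Finset.univ
    (fun _ : ι → Bool => ((2 : ℝ≥0∞) ^ Fintype.card ι)⁻¹)
    (fun ε => ∑ j, ‖∑ k, (sg (ε k) : ℂ) * z k j‖ₑ ^ 2) inv_card (p := p) hp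
  rw [← Finset.mul_sum, ← Finset.mul_sum, Finset.sum_comm] at h
  simp only [l2_gen] at h
  rw [← Finset.mul_sum, ← mul_assoc,
    ENNReal.inv_mul_cancel (by positivity) (by simp), one_mul] at h
  exact h

/-- the strip functions of one generation -/
noncomputable def bx (n j : ℕ) (c : ℝ → ℂ) : ℝ × ℝ → ℂ := box (pt n j) (pt n (j + 1)) c

theorem grid (r : ℝ) (hr : 3 < r) :
    ∃ K : ℝ≥0∞, K ≠ ⊤ ∧ ∀ (n : ℕ) (ι : Type) [Fintype ι] [DecidableEq ι]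
      (c : ι → ℕ → ℝ → ℂ), (∀ k j, Measurable (c k j)) →
      (∀ k j y, 1 < |y| → c k j y = 0) → (∀ k j, Integrable (c k j)) →
      ∫⁻ ξ, (∑ j : Fin (2 ^ n), ∑ k, ‖ext (bx n j (c k j)) ξ‖ₑ ^ 2) ^ (r / 2) ≤
        K * ∑ j : Fin (2 ^ n), ((2 : ℝ≥0∞) ^ n)⁻¹ * ∫⁻ y, (∑ k, ‖c k j y‖ₑ ^ 2) ^ (r / 2) := by
  obtain ⟨K, hK, hKK⟩ := strips_sq r hr
  refine ⟨K * ENNReal.ofReal (K1 r), ENNReal.mul_ne_top hK ENNReal.ofReal_ne_top, ?_⟩
  intro n ι _ _ c hcm hc0 hci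
  set g : (ι → Bool) → Fin (2 ^ n) → ℝ → ℂ := fun δ j y => ∑ k, (sg (δ k) : ℂ) * c k j y with hg
  have hgm : ∀ δ j, Measurable (g δ j) := fun δ j =>
    Finset.measurable_sum _ fun k _ => (hcm k j).const_mul _
  have hg0 : ∀ δ j y, 1 < |y| → g δ j y = 0 := by
    intro δ j y hy
    rw [hg]
    simp only [hc0 _ _ y hy, mul_zero, Finset.sum_const_zero]
  have hgi : ∀ δ j, Integrable (g δ j) := fun δ j =>
    integrable_finsetSum _ fun k _ => (hci k j).const_mul _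
  have hlin : ∀ δ (j : Fin (2 ^ n)) ξ, ext (box (pt n j) (pt n (j + 1)) (g δ j)) ξ =
      ∑ k, (sg (δ k) : ℂ) * ext (bx n j (c k j)) ξ := by
    intro δ j ξ
    rw [← ext_lin Finset.univ (fun k => (sg (δ k) : ℂ)) (fun k => bx n j (c k j))
      (fun k _ => box_int _ _ _ (hci k j)) ξ]
    congr 1
    ext x
    unfold bx
    simp only [box_eq, hg, Finset.mul_sum]
    apply Finset.sum_congr rfl
    intro k _
    ring
  have hst := fun δ => hKK (2 ^ n) (fun j => pt n j) (fun j => pt n (j + 1)) (g δ) (itv n)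
    (hgm δ) (hg0 δ) (hgi δ)
  have hEm : ∀ k (j : ℕ), Measurable fun ξ => ext (bx n j (c k j)) ξ := fun k j =>
    ext_me (box_meas _ _ _ (hcm k j))
  have hXm : ∀ δ : ι → Bool, Measurable fun ξ =>
      (∑ j : Fin (2 ^ n), ‖∑ k, (sg (δ k) : ℂ) * ext (bx n j (c k j)) ξ‖ₑ ^ 2) ^ (r / 2) := by
    intro δ
    apply Measurable.pow_const
    apply Finset.measurable_sum
    intro j _
    exact (Finset.measurable_sum _ fun k _ => (hEm k j).const_mul _).enorm.pow_const 2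
  have hc0' : ((2 : ℝ≥0∞) ^ Fintype.card ι)⁻¹ ≠ ⊤ := by
    rw [ENNReal.inv_ne_top]
    positivity
  calc ∫⁻ ξ, (∑ j : Fin (2 ^ n), ∑ k, ‖ext (bx n j (c k j)) ξ‖ₑ ^ 2) ^ (r / 2)
      ≤ ∫⁻ ξ, ((2 : ℝ≥0∞) ^ Fintype.card ι)⁻¹ * ∑ δ : ι → Bool,
        (∑ j : Fin (2 ^ n), ‖∑ k, (sg (δ k) : ℂ) * ext (bx n j (c k j)) ξ‖ₑ ^ 2) ^ (r / 2) :=
        lintegral_mono fun ξ => vec_low _ _ (by linarith)
    _ = ((2 : ℝ≥0∞) ^ Fintype.card ι)⁻¹ * ∑ δ : ι → Bool, ∫⁻ ξ,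
        (∑ j : Fin (2 ^ n), ‖ext (box (pt n j) (pt n (j + 1)) (g δ j)) ξ‖ₑ ^ 2) ^ (r / 2) := by
        rw [lintegral_const_mul' _ _ hc0', lintegral_finsetSum _ fun δ _ => hXm δ]
        simp only [hlin]
    _ ≤ ((2 : ℝ≥0∞) ^ Fintype.card ι)⁻¹ * ∑ δ : ι → Bool,
        K * WW (fun j : Fin (2 ^ n) => pt n j) (fun j => pt n (j + 1)) (g δ) r := by
        gcongr with δ
        exact hst δ
    _ = K * ∑ j : Fin (2 ^ n), ((2 : ℝ≥0∞) ^ n)⁻¹ *
        ∫⁻ y, ((2 : ℝ≥0∞) ^ Fintype.card ι)⁻¹ * ∑ δ : ι → Bool, ‖g δ j y‖ₑ ^ r := by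
        unfold Pool.Agent.H728R3.SR.WW
        simp only [pt_subE]
        rw [← Finset.mul_sum, Finset.sum_comm, mul_left_comm, Finset.mul_sum]
        congr 1
        apply Finset.sum_congr rfl
        intro j _
        rw [lintegral_const_mul' _ _ hc0', lintegral_finsetSum _ fun δ _ =>
          (hgm δ j).enorm.pow_const r, ← Finset.mul_sum]
        ring
    _ ≤ K * ∑ j : Fin (2 ^ n), ((2 : ℝ≥0∞) ^ n)⁻¹ *
        ∫⁻ y, ENNReal.ofReal (K1 r) * (∑ k, ‖c k j y‖ₑ ^ 2) ^ (r / 2) := by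
        refine mul_le_mul_right (Finset.sum_le_sum fun j _ => mul_le_mul_right
          (lintegral_mono fun y => ?_) _) _
        have h := khinchine r (by linarith) (fun k => c k j y)
        calc ((2 : ℝ≥0∞) ^ Fintype.card ι)⁻¹ * ∑ δ : ι → Bool, ‖g δ j y‖ₑ ^ r
            ≤ ((2 : ℝ≥0∞) ^ Fintype.card ι)⁻¹ * (2 ^ Fintype.card ι *
              (ENNReal.ofReal (K1 r) * (∑ k, ‖c k j y‖ₑ ^ 2) ^ (r / 2))) :=
              mul_le_mul_right h _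
          _ = _ := by
              rw [← mul_assoc, ENNReal.inv_mul_cancel (by positivity) (by simp), one_mul]
    _ = _ := by
        rw [mul_assoc]
        congr 1
        rw [Finset.mul_sum]
        apply Finset.sum_congr rfl
        intro j _
        rw [lintegral_const_mul' _ _ ENNReal.ofReal_ne_top]
        ring

end Pool.Agent.Q167.RS
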