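import Mathlib
import Pool.Agent.Q167.RS.Grid
set_option autoImplicit false

/-! Geometric decay of the contribution of one dyadic generation. -/

namespace Pool.Agent.Q167.RS

open MeasureTheory Set Complex
open scoped ENNReal NNReal
open Pool.Agent.H728R3.SR (sg khinchine K1 semi Itv WW main_W)
open Pool.Agent.H147R3.PE (ext)
open Pool.Agent.Q167.HM

/-- admissible coefficient functions of one generation -/
structure Adm {ι : Type} [Fintype ι] (S : ℝ × ℝ → ℝ≥0∞) (n : ℕ) (c : ι → ℕ → ℝ → ℂ) : Prop where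
  meas : ∀ k j, Measurable (c k j)
  int : ∀ k j, Integrable (c k j)
  zero : ∀ k j y, y ∉ Ioc (-1 / 2 : ℝ) (1 / 2) → c k j y = 0
  le : ∀ j : Fin (2 ^ n), ∀ x ∈ JJ n j, ∀ y, ∑ k, ‖c k j y‖ₑ ^ 2 ≤ S (x, y)

/-- the vector sum of one generation -/
noncomputable def Vn {ι : Type} [Fintype ι] (c : ι → ℕ → ℝ → ℂ) (n : ℕ) (ξ : ℝ × ℝ × ℝ) : ℝ≥0∞ :=
  ∑ j : Fin (2 ^ n), ∑ k, ‖ext (bx n j (c k j)) ξ‖ₑ ^ 2

lemma hold_F {F : ℝ × ℝ → ℝ≥0∞} (hF : Measurable F) (h0 : ∀ x, x ∉ Q0 → F x = 0) (s t : ℝ)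
    (hs : 0 < s) (ht : s < t) : ∫⁻ x, F x ^ s ≤ (∫⁻ x, F x ^ t) ^ (s / t) := by
  have hQ : ∀ u : ℝ, 0 < u → ∫⁻ x, F x ^ u = ∫⁻ x in Q0, F x ^ u := by
    intro u hu
    rw [← lintegral_indicator Q0_meas]
    apply lintegral_congr
    intro x
    by_cases hx : x ∈ Q0
    · rw [indicator_of_mem hx]
    · rw [indicator_of_notMem hx, h0 x hx]
      simp [hu]
  rw [hQ s hs, hQ t (hs.trans ht)]
  have h1 : 1 < t / s := by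
    rw [lt_div_iff₀ hs]
    linarith
  refine (holder_set volume (fun x => F x ^ s) (hF.pow_const s) Q0 (t / s)
    h1).trans (le_of_eq ?_)
  rw [Q0_vol, ENNReal.one_rpow, mul_one, one_div_div]
  congr 1
  apply lintegral_congr
  intro x
  rw [← ENNReal.rpow_mul]
  congr 1
  field_simp

lemma sum_dom {G : ℝ × ℝ → ℝ≥0∞} (hG : Measurable G) (n : ℕ) (H : ℕ → ℝ → ℝ≥0∞)
    (h : ∀ j : Fin (2 ^ n), ∀ x ∈ JJ n j, ∀ y, H j y ≤ G (x, y)) :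
    ∑ j : Fin (2 ^ n), ((2 : ℝ≥0∞) ^ n)⁻¹ * ∫⁻ y, H j y ≤ ∫⁻ p, G p := by
  refine le_trans ?_ (sumP hG n)
  rw [Finset.sum_range]
  apply Finset.sum_le_sum
  intro j _
  have hc : ((2 : ℝ≥0∞) ^ n)⁻¹ ≠ ⊤ := by
    rw [ENNReal.inv_ne_top]
    positivity
  rw [← lintegral_const_mul' _ _ hc]
  apply lintegral_mono
  intro y
  simp only
  rw [← JJ_vol n j, mul_comm, ← setLIntegral_const]
  exact setLIntegral_mono' (JJ_meas n j) fun x hx => h j x hx y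

lemma Adm.zero1 {ι : Type} [Fintype ι] {S : ℝ × ℝ → ℝ≥0∞} {n : ℕ} {c : ι → ℕ → ℝ → ℂ}
    (h : Adm S n c) (k : ι) (j : ℕ) (y : ℝ) (hy : 1 < |y|) : c k j y = 0 := by
  apply h.zero
  intro h1
  have h2 := h1.1
  have h3 := h1.2
  rcases abs_cases y with h4 | h4 <;> linarith

lemma Vn_int (r : ℝ) (hr : 3 < r) : ∃ K : ℝ≥0∞, K ≠ ⊤ ∧ ∀ (S : ℝ × ℝ → ℝ≥0∞), Measurable S →
    ∀ (n : ℕ) (ι : Type) [Fintype ι] [DecidableEq ι] (c : ι → ℕ → ℝ → ℂ), Adm S n c →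
    ∫⁻ ξ, Vn c n ξ ^ (r / 2) ≤ K * ∫⁻ x, S x ^ (r / 2) := by
  obtain ⟨K, hK, hKK⟩ := grid r hr
  refine ⟨K, hK, fun S hS n ι _ _ c hc => ?_⟩
  refine (hKK n ι c hc.meas hc.zero1 hc.int).trans (mul_le_mul_right ?_ _)
  exact sum_dom (hS.pow_const _) n (fun j y => (∑ k, ‖c k j y‖ₑ ^ 2) ^ (r / 2))
    (fun j x hx y => ENNReal.rpow_le_rpow (hc.le j x hx y) (by linarith))

lemma bx_bd {c : ℝ → ℂ} (hc : Measurable c) (h0 : ∀ y, y ∉ Ioc (-1 / 2 : ℝ) (1 / 2) → c y = 0)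
    (n j : ℕ) (ξ : ℝ × ℝ × ℝ) :
    ‖ext (bx n j c) ξ‖ₑ ^ 2 ≤ ((2 : ℝ≥0∞) ^ n)⁻¹ * (((2 : ℝ≥0∞) ^ n)⁻¹ * ∫⁻ y, ‖c y‖ₑ ^ 2) := by
  have h1 : ‖ext (bx n j c) ξ‖ₑ ≤ ((2 : ℝ≥0∞) ^ n)⁻¹ * ∫⁻ y, ‖c y‖ₑ := by
    refine (ext_bd _ ξ).trans (le_of_eq ?_)
    unfold bx
    rw [box_lint _ _ _ hc, pt_subE]
  have h2 : (∫⁻ y, ‖c y‖ₑ) ^ 2 ≤ ∫⁻ y, ‖c y‖ₑ ^ 2 := by
    have h3 := jensen_set volume (fun y => ‖c y‖ₑ) hc.enorm (Ioc (-1 / 2 : ℝ) (1 / 2)) 1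
      (by simp) (by simp) (by rw [Real.volume_Ioc]; norm_num) 2 (by norm_num)
    simp only [one_mul, ENNReal.rpow_ofNat] at h3
    have h4 : ∫⁻ y, ‖c y‖ₑ = ∫⁻ y in Ioc (-1 / 2 : ℝ) (1 / 2), ‖c y‖ₑ := by
      rw [← lintegral_indicator measurableSet_Ioc]
      apply lintegral_congr
      intro y
      by_cases hy : y ∈ Ioc (-1 / 2 : ℝ) (1 / 2)
      · rw [indicator_of_mem hy]
      · rw [indicator_of_notMem hy, h0 y hy, enorm_zero]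
    rw [h4]
    exact h3.trans (setLIntegral_le_lintegral _ _)
  calc ‖ext (bx n j c) ξ‖ₑ ^ 2 ≤ (((2 : ℝ≥0∞) ^ n)⁻¹ * ∫⁻ y, ‖c y‖ₑ) ^ 2 := pow_le_pow_left' h1 2
    _ = ((2 : ℝ≥0∞) ^ n)⁻¹ * (((2 : ℝ≥0∞) ^ n)⁻¹ * (∫⁻ y, ‖c y‖ₑ) ^ 2) := by ring
    _ ≤ _ := by gcongr

lemma Vn_sup {S : ℝ × ℝ → ℝ≥0∞} (hS : Measurable S) (n : ℕ) {ι : Type} [Fintype ι]
    {c : ι → ℕ → ℝ → ℂ} (hc : Adm S n c) (ξ : ℝ × ℝ × ℝ) :
    Vn c n ξ ≤ ((2 : ℝ≥0∞) ^ n)⁻¹ * ∫⁻ x, S x := by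
  unfold Vn
  calc ∑ j : Fin (2 ^ n), ∑ k, ‖ext (bx n j (c k j)) ξ‖ₑ ^ 2
      ≤ ∑ j : Fin (2 ^ n), ∑ k, ((2 : ℝ≥0∞) ^ n)⁻¹ * (((2 : ℝ≥0∞) ^ n)⁻¹ * ∫⁻ y, ‖c k j y‖ₑ ^ 2) := by
        gcongr with j _ k _
        exact bx_bd (hc.meas k j) (hc.zero k j) n j ξ
    _ = ((2 : ℝ≥0∞) ^ n)⁻¹ * ∑ j : Fin (2 ^ n), ((2 : ℝ≥0∞) ^ n)⁻¹ *
        ∫⁻ y, ∑ k, ‖c k j y‖ₑ ^ 2 := by
        rw [Finset.mul_sum]
        apply Finset.sum_congr rfl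
        intro j _
        rw [lintegral_finsetSum _ fun k _ => (hc.meas k j).enorm.pow_const 2, Finset.mul_sum,
          Finset.mul_sum]
    _ ≤ _ := mul_le_mul_right (sum_dom hS n (fun j y => ∑ k, ‖c k j y‖ₑ ^ 2) hc.le) _

lemma Vn_meas {S : ℝ × ℝ → ℝ≥0∞} (n : ℕ) {ι : Type} [Fintype ι]
    {c : ι → ℕ → ℝ → ℂ} (hc : Adm S n c) : Measurable (Vn c n) := by
  unfold Vn
  apply Finset.measurable_sum
  intro j _
  apply Finset.measurable_sum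
  intro k _
  exact (ext_me (box_meas _ _ _ (hc.meas k j))).enorm.pow_const 2

theorem Vn_q (r q : ℝ) (hr : 3 < r) (hq : r < q) : ∃ K : ℝ≥0∞, K ≠ ⊤ ∧
    ∀ (S : ℝ × ℝ → ℝ≥0∞), Measurable S → (∀ x, x ∉ Q0 → S x = 0) →
    ∀ (n : ℕ) (ι : Type) [Fintype ι] [DecidableEq ι] (c : ι → ℕ → ℝ → ℂ), Adm S n c →
    ∫⁻ ξ, Vn c n ξ ^ (q / 2) ≤ K * (∫⁻ x, S x ^ (q / 2)) *
      (((2 : ℝ≥0∞) ^ n)⁻¹) ^ ((q - r) / 2) := by
  obtain ⟨K, hK, hKK⟩ := Vn_int r hr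
  refine ⟨K, hK, fun S hS h0 n ι _ _ c hc => ?_⟩
  set W := ∫⁻ x, S x ^ (q / 2) with hW
  set δ := (((2 : ℝ≥0∞) ^ n)⁻¹) with hδ
  have hq0 : 0 < q := by linarith
  have hr0 : 0 < r := by linarith
  have hsup : ∀ ξ, Vn c n ξ ≤ δ * W ^ (2 / q) := by
    intro ξ
    refine (Vn_sup hS n hc ξ).trans (mul_le_mul_right ?_ _)
    have h := hold_F hS h0 1 (q / 2) one_pos (by linarith)
    simp only [ENNReal.rpow_one, one_div_div] at h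
    exact h
  have h1 : ∀ ξ, Vn c n ξ ^ (q / 2) ≤ (δ * W ^ (2 / q)) ^ ((q - r) / 2) * Vn c n ξ ^ (r / 2) := by
    intro ξ
    have h2 : Vn c n ξ ^ (q / 2) = Vn c n ξ ^ ((q - r) / 2) * Vn c n ξ ^ (r / 2) := by
      rw [← ENNReal.rpow_add_of_nonneg _ _ (by linarith) (by linarith)]
      congr 1
      ring
    rw [h2]
    exact mul_le_mul_left (ENNReal.rpow_le_rpow (hsup ξ) (by linarith)) _
  calc ∫⁻ ξ, Vn c n ξ ^ (q / 2) ≤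
        ∫⁻ ξ, (δ * W ^ (2 / q)) ^ ((q - r) / 2) * Vn c n ξ ^ (r / 2) :=
        lintegral_mono h1
    _ = (δ * W ^ (2 / q)) ^ ((q - r) / 2) * ∫⁻ ξ, Vn c n ξ ^ (r / 2) :=
        lintegral_const_mul _ ((Vn_meas n hc).pow_const _)
    _ ≤ (δ * W ^ (2 / q)) ^ ((q - r) / 2) * (K * W ^ (r / q)) := by
        refine mul_le_mul_right ((hKK S hS n ι c hc).trans (mul_le_mul_right ?_ _)) _
        have h := hold_F hS h0 (r / 2) (q / 2) (by linarith) (by linarith)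
        rw [show r / 2 / (q / 2) = r / q by field_simp] at h
        exact h
    _ = _ := by
        rw [ENNReal.mul_rpow_of_nonneg _ _ (by linarith), ← ENNReal.rpow_mul]
        have e1 : W ^ (2 / q * ((q - r) / 2)) * W ^ (r / q) = W := by
          rw [← ENNReal.rpow_add_of_nonneg _ _ (by
            have : 0 ≤ (q - r) / 2 := by linarith
            positivity) (by positivity)]
          have : 2 / q * ((q - r) / 2) + r / q = 1 := by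
            field_simp
            ring
          rw [this, ENNReal.rpow_one]
        calc _ = K * (W ^ (2 / q * ((q - r) / 2)) * W ^ (r / q)) * δ ^ ((q - r) / 2) := by ring
          _ = _ := by rw [e1]

end Pool.Agent.Q167.RS
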