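import Mathlib
import Pool.Agent.Q167.RS.Decay
set_option autoImplicit false

/-! Decomposition of an interval into dyadic intervals, two of each generation. -/

namespace Pool.Agent.Q167.RS

open MeasureTheory Set Complex Filter Topology
open scoped ENNReal NNReal
open Pool.Agent.H147R3.PE (ext)
open Pool.Agent.Q167.HM

/-- the dyadic interval is contained in `(a, b]` -/
def inn (a b : ℝ) (n j : ℕ) : Prop := a ≤ pt n j ∧ pt n (j + 1) ≤ b

/-- the maximal dyadic intervals of `(a, b]` -/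
def nw (a b : ℝ) : ℕ → ℕ → Prop
  | 0, j => inn a b 0 j
  | (n + 1), j => inn a b (n + 1) j ∧ ¬ inn a b n (j / 2)

variable {a b : ℝ}

lemma nw_inn {n j : ℕ} (h : nw a b n j) : inn a b n j := by
  cases n with
  | zero => exact h
  | succ n => exact h.1

lemma inn_child {n j : ℕ} (h : inn a b n (j / 2)) : inn a b (n + 1) j := by
  constructor
  · refine h.1.trans ?_
    rw [← pt_two n (j / 2)]
    exact pt_mono _ (by omega)
  · refine le_trans ?_ h.2
    rw [← pt_two n (j / 2 + 1)]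
    exact pt_mono _ (by omega)

lemma sum_pairsM {M : Type*} [AddCommMonoid M] (F : ℕ → M) (m : ℕ) :
    ∑ j ∈ Finset.range (2 * m), F j = ∑ k ∈ Finset.range m, (F (2 * k) + F (2 * k + 1)) := by
  induction m with
  | zero => simp
  | succ m ih =>
    rw [show 2 * (m + 1) = 2 * m + 1 + 1 by ring, Finset.sum_range_succ, Finset.sum_range_succ, ih,
      Finset.sum_range_succ, add_assoc]

open Classical in
lemma tele (Z : ℕ → ℕ → ℂ) (hZ : ∀ n j, Z n j = Z (n + 1) (2 * j) + Z (n + 1) (2 * j + 1)) (n : ℕ) :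
    ∑ j ∈ Finset.range (2 ^ n), (if inn a b n j then Z n j else 0) =
      ∑ m ∈ Finset.range (n + 1), ∑ j ∈ Finset.range (2 ^ m), (if nw a b m j then Z m j else 0) := by
  induction n with
  | zero =>
    simp only [pow_zero, Finset.range_one, Finset.sum_singleton, zero_add]
    rfl
  | succ n ih =>
    rw [Finset.sum_range_succ, ← ih]
    have h1 : ∑ j ∈ Finset.range (2 ^ n), (if inn a b n j then Z n j else 0) =
        ∑ j ∈ Finset.range (2 ^ (n + 1)), (if inn a b n (j / 2) then Z (n + 1) j else 0) := by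
      rw [show 2 ^ (n + 1) = 2 * 2 ^ n by ring, sum_pairsM]
      apply Finset.sum_congr rfl
      intro k _
      rw [show 2 * k / 2 = k by omega, show (2 * k + 1) / 2 = k by omega]
      split_ifs
      · exact hZ n k
      · simp
    rw [h1, ← Finset.sum_add_distrib]
    apply Finset.sum_congr rfl
    intro j _
    by_cases h2 : inn a b n (j / 2)
    · have h3 := inn_child h2
      rw [if_pos h3, if_pos h2, if_neg (fun h : nw a b (n + 1) j => h.2 h2), add_zero]
    · rw [if_neg h2, zero_add]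
      by_cases h3 : inn a b (n + 1) j
      · rw [if_pos h3, if_pos (show nw a b (n + 1) j from ⟨h3, h2⟩)]
      · rw [if_neg h3, if_neg (fun h : nw a b (n + 1) j => h3 h.1)]

lemma pt_lt {n k l : ℕ} (h : pt n k < pt n l) : k < l := by
  by_contra hc
  push Not at hc
  have := pt_mono n hc
  linarith

lemma left_unique {n j j' : ℕ} (h : inn a b (n + 1) j) (h1 : pt n (j / 2) < a)
    (h' : inn a b (n + 1) j') (h1' : pt n (j' / 2) < a) : j = j' := by
  rw [← pt_two] at h1 h1'
  have e1 : 2 * (j / 2) < j := pt_lt (h1.trans_le h.1)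
  have e2 : 2 * (j' / 2) < j' := pt_lt (h1'.trans_le h'.1)
  have e3 : 2 * (j / 2) < j' := pt_lt (h1.trans_le h'.1)
  have e4 : 2 * (j' / 2) < j := pt_lt (h1'.trans_le h.1)
  omega

lemma right_unique {n j j' : ℕ} (h : inn a b (n + 1) j) (h1 : b < pt n (j / 2 + 1))
    (h' : inn a b (n + 1) j') (h1' : b < pt n (j' / 2 + 1)) : j = j' := by
  rw [← pt_two] at h1 h1'
  have e1 : j + 1 < 2 * (j / 2 + 1) := pt_lt (h.2.trans_lt h1)
  have e2 : j' + 1 < 2 * (j' / 2 + 1) := pt_lt (h'.2.trans_lt h1')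
  have e3 : j' + 1 < 2 * (j / 2 + 1) := pt_lt (h'.2.trans_lt h1)
  have e4 : j + 1 < 2 * (j' / 2 + 1) := pt_lt (h.2.trans_lt h1')
  omega

open Classical in
lemma uniq_sum (s : Finset ℕ) (P : ℕ → Prop) (z : ℕ → ℂ) (h : ∀ j j', P j → P j' → j = j') :
    ‖∑ j ∈ s, (if P j then z j else 0)‖ₑ ^ 2 ≤ ∑ j ∈ s, (if P j then ‖z j‖ₑ ^ 2 else 0) := by
  by_cases hex : ∃ j ∈ s, P j
  · obtain ⟨j, hj, hPj⟩ := hex
    rw [Finset.sum_eq_single j, if_pos hPj]
    · have := Finset.single_le_sum (f := fun j => if P j then ‖z j‖ₑ ^ 2 else 0)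
        (fun _ _ => zero_le) hj
      simp only [if_pos hPj] at this
      exact this
    · intro i _ hij
      rw [if_neg]
      exact fun hP => hij (h i j hP hPj)
    · intro h1
      exact absurd hj h1
  · push Not at hex
    rw [Finset.sum_eq_zero]
    · simp
    · intro j hj
      rw [if_neg (hex j hj)]

open Classical in
lemma gen_bd (Z : ℕ → ℕ → ℂ) (m : ℕ) :
    ‖∑ j ∈ Finset.range (2 ^ m), (if nw a b m j then Z m j else 0)‖ₑ ^ 2 ≤
      2 * ∑ j ∈ Finset.range (2 ^ m), (if nw a b m j then ‖Z m j‖ₑ ^ 2 else 0) := by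
  cases m with
  | zero =>
    simp only [pow_zero, Finset.range_one, Finset.sum_singleton]
    split_ifs
    · exact le_mul_of_one_le_left zero_le (by norm_num)
    · simp
  | succ m =>
    obtain ⟨P, hP⟩ : ∃ P : ℕ → Prop, ∀ j, P j ↔ (inn a b (m + 1) j ∧ pt m (j / 2) < a) :=
      ⟨_, fun _ => Iff.rfl⟩
    obtain ⟨R, hR⟩ : ∃ R : ℕ → Prop, ∀ j, R j ↔ (nw a b (m + 1) j ∧ ¬ P j) :=
      ⟨_, fun _ => Iff.rfl⟩
    have hPn : ∀ j, P j → nw a b (m + 1) j := fun j h => ⟨((hP j).1 h).1, fun h2 => by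
      have := h2.1
      linarith [((hP j).1 h).2]⟩
    have hRb : ∀ j, R j → b < pt m (j / 2 + 1) := by
      intro j h
      have h := (hR j).1 h
      by_contra hc
      push Not at hc
      apply h.1.2
      refine ⟨?_, hc⟩
      by_contra hc2
      push Not at hc2
      exact h.2 ((hP j).2 ⟨h.1.1, hc2⟩)
    have hPu : ∀ j j', P j → P j' → j = j' := fun j j' h h' =>
      left_unique ((hP j).1 h).1 ((hP j).1 h).2 ((hP j').1 h').1 ((hP j').1 h').2
    have hRu : ∀ j j', R j → R j' → j = j' := fun j j' h h' =>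
      right_unique ((hR j).1 h).1.1 (hRb j h) ((hR j').1 h').1.1 (hRb j' h')
    have e1 : ∀ {M : Type} [AddCommMonoid M] (z : ℕ → M) (j : ℕ),
        (if nw a b (m + 1) j then z j else 0) = (if P j then z j else 0) + (if R j then z j else 0) := by
      intro M _ z j
      by_cases h1 : P j
      · rw [if_pos (hPn j h1), if_pos h1, if_neg (fun h : R j => ((hR j).1 h).2 h1), add_zero]
      · by_cases h2 : nw a b (m + 1) j
        · rw [if_pos h2, if_neg h1, if_pos ((hR j).2 ⟨h2, h1⟩), zero_add]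
        · rw [if_neg h2, if_neg h1, if_neg (fun h : R j => h2 ((hR j).1 h).1), zero_add]
    have e2 := fun j => e1 (Z (m + 1)) j
    have e3 := fun j => e1 (fun j => ‖Z (m + 1) j‖ₑ ^ 2) j
    have h1 := uniq_sum (Finset.range (2 ^ (m + 1))) P (Z (m + 1)) hPu
    have h2 := uniq_sum (Finset.range (2 ^ (m + 1))) R (Z (m + 1)) hRu
    have e4 : ∑ j ∈ Finset.range (2 ^ (m + 1)), (if nw a b (m + 1) j then Z (m + 1) j else 0) =
        ∑ j ∈ Finset.range (2 ^ (m + 1)), (if P j then Z (m + 1) j else 0) +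
        ∑ j ∈ Finset.range (2 ^ (m + 1)), (if R j then Z (m + 1) j else 0) := by
      rw [← Finset.sum_add_distrib]
      exact Finset.sum_congr rfl fun j _ => e2 j
    have e5 : ∑ j ∈ Finset.range (2 ^ (m + 1)), (if nw a b (m + 1) j then ‖Z (m + 1) j‖ₑ ^ 2 else 0) =
        ∑ j ∈ Finset.range (2 ^ (m + 1)), (if P j then ‖Z (m + 1) j‖ₑ ^ 2 else 0) +
        ∑ j ∈ Finset.range (2 ^ (m + 1)), (if R j then ‖Z (m + 1) j‖ₑ ^ 2 else 0) := by
      rw [← Finset.sum_add_distrib]
      exact Finset.sum_congr rfl fun j _ => e3 j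
    rw [e4, e5]
    exact (sq_add _ _).trans (mul_le_mul_right (add_le_add h1 h2) _)

open Classical in
/-- the union of the dyadic intervals of generation `n` inside `(a, b]` -/
noncomputable def chi (a b : ℝ) (n : ℕ) (x : ℝ) : ℂ :=
  ∑ j ∈ Finset.range (2 ^ n), (if inn a b n j then (JJ n j).indicator (fun _ => (1 : ℂ)) x else 0)

lemma JJ_sub {n j : ℕ} (h : inn a b n j) : JJ n j ⊆ Ioc a b := fun _ hx =>
  ⟨h.1.trans_lt hx.1, hx.2.trans h.2⟩

lemma chi_out (n : ℕ) (x : ℝ) (hx : x ∉ Ioc a b) : chi a b n x = 0 := by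
  unfold chi
  apply Finset.sum_eq_zero
  intro j _
  split_ifs with h
  · rw [indicator_of_notMem]
    exact fun h2 => hx (JJ_sub h h2)
  · rfl

lemma chi_mem (n : ℕ) (x : ℝ) (j : ℕ) (hj : j ∈ Finset.range (2 ^ n)) (hx : x ∈ JJ n j)
    (h : inn a b n j) : chi a b n x = 1 := by
  unfold chi
  rw [Finset.sum_eq_single j, if_pos h, indicator_of_mem hx]
  · intro i _ hij
    split_ifs
    · rw [indicator_of_notMem]
      exact fun h2 => (Set.disjoint_left.1 (JJ_disj n hij)) h2 hx
    · rfl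
  · intro h1
    exact absurd hj h1

lemma chi_norm (n : ℕ) (x : ℝ) : ‖chi a b n x‖ ≤ 1 := by
  by_cases h : ∃ j ∈ Finset.range (2 ^ n), x ∈ JJ n j ∧ inn a b n j
  · obtain ⟨j, hj, hx, hi⟩ := h
    rw [chi_mem n x j hj hx hi]
    simp
  · have : chi a b n x = 0 := by
      unfold chi
      apply Finset.sum_eq_zero
      intro j hj
      split_ifs with hi
      · rw [indicator_of_notMem]
        exact fun hx => h ⟨j, hj, hx, hi⟩
      · rfl
    rw [this]
    simp

lemma exists_JJ (n : ℕ) (x : ℝ) (hx : x ∈ Ioc (-1 / 2 : ℝ) (1 / 2)) :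
    ∃ j ∈ Finset.range (2 ^ n), x ∈ JJ n j := by
  have h2 : (0 : ℝ) < 2 ^ n := by positivity
  set v := (x + 1 / 2) * 2 ^ n with hv
  have hv0 : 0 < v := by
    apply mul_pos _ h2
    linarith [hx.1]
  have hv1 : v ≤ 2 ^ n := by
    rw [hv]
    have : x + 1 / 2 ≤ 1 := by linarith [hx.2]
    nlinarith
  set J := ⌈v⌉₊ with hJ
  have hJ0 : 0 < J := Nat.ceil_pos.2 hv0
  have hJ1 : J ≤ 2 ^ n := by
    rw [hJ, Nat.ceil_le]
    push_cast
    exact hv1
  have a1 : v ≤ J := Nat.le_ceil v
  have a2 : (J : ℝ) < v + 1 := Nat.ceil_lt_add_one hv0.le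
  refine ⟨J - 1, by rw [Finset.mem_range]; omega, ?_⟩
  have hJc : ((J - 1 : ℕ) : ℝ) = J - 1 := by
    rw [Nat.cast_sub hJ0]
    simp
  unfold JJ pt
  push_cast
  rw [hJc]
  constructor
  · have : ((J : ℝ) - 1) / 2 ^ n < x + 1 / 2 := by
      rw [div_lt_iff₀ h2]
      linarith
    linarith
  · have : x + 1 / 2 ≤ ((J : ℝ) - 1 + 1) / 2 ^ n := by
      rw [le_div_iff₀ h2]
      linarith
    linarith

lemma chi_lim (ha : -1 / 2 ≤ a) (hb : b ≤ 1 / 2) (x : ℝ) (hx : x ≠ b) :
    ∀ᶠ n in atTop, chi a b n x = (Ioc a b).indicator (fun _ => (1 : ℂ)) x := by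
  by_cases hm : x ∈ Ioc a b
  · rw [indicator_of_mem hm]
    have hxb : x < b := lt_of_le_of_ne hm.2 hx
    have hpos : 0 < min (x - a) (b - x) := lt_min (by linarith [hm.1]) (by linarith)
    have ht : Tendsto (fun n : ℕ => ((1 / 2 : ℝ)) ^ n) atTop (𝓝 0) :=
      tendsto_pow_atTop_nhds_zero_of_lt_one (by norm_num) (by norm_num)
    filter_upwards [ht.eventually (gt_mem_nhds hpos)] with n hn
    have hn1 : (2 ^ n : ℝ)⁻¹ < x - a := by
      rw [← one_div, ← one_div_pow]
      exact hn.trans_le (min_le_left _ _)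
    have hn2 : (2 ^ n : ℝ)⁻¹ < b - x := by
      rw [← one_div, ← one_div_pow]
      exact hn.trans_le (min_le_right _ _)
    obtain ⟨j, hj, hxj⟩ := exists_JJ n x ⟨by linarith [hm.1], by linarith⟩
    apply chi_mem n x j hj hxj
    have hs := pt_sub n j
    have h1 := hxj.1
    have h2 := hxj.2
    constructor <;> linarith
  · rw [indicator_of_notMem hm]
    exact Eventually.of_forall fun n => chi_out n x hm

open Classical in
lemma ext_lim (ha : -1 / 2 ≤ a) (hb : b ≤ 1 / 2) (c : ℝ → ℂ) (hc : Integrable c)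
    (ξ : ℝ × ℝ × ℝ) :
    Tendsto (fun n => ∑ j ∈ Finset.range (2 ^ n), (if inn a b n j then ext (bx n j c) ξ else 0))
      atTop (𝓝 (ext (box a b c) ξ)) := by
  have h1 : ∀ n, ∑ j ∈ Finset.range (2 ^ n), (if inn a b n j then ext (bx n j c) ξ else 0) =
      ext (fun x => chi a b n x.1 * c x.2) ξ := by
    intro n
    have h2 := ext_lin (Finset.range (2 ^ n)) (fun j => if inn a b n j then (1 : ℂ) else 0)
      (fun j => bx n j c) (fun j _ => box_int _ _ _ hc) ξ
    have h3 : (fun x : ℝ × ℝ => chi a b n x.1 * c x.2) = fun x =>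
        ∑ j ∈ Finset.range (2 ^ n), (if inn a b n j then (1 : ℂ) else 0) * bx n j c x := by
      ext x
      unfold chi bx JJ
      rw [Finset.sum_mul]
      apply Finset.sum_congr rfl
      intro j _
      rw [box_eq]
      split_ifs <;> simp
    rw [h3, h2]
    apply Finset.sum_congr rfl
    intro j _
    split_ifs <;> simp
  simp only [h1]
  unfold Pool.Agent.H147R3.PE.ext
  have hdom : Integrable (fun x : ℝ × ℝ => box (-1 / 2) (1 / 2) c x) := box_int _ _ _ hc
  apply tendsto_integral_of_dominated_convergence (fun x => ‖box (-1 / 2) (1 / 2) c x‖)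
  · intro n
    have hcm : AEStronglyMeasurable (fun x : ℝ × ℝ => c x.2) := by
      rw [Measure.volume_eq_prod]
      exact hc.aestronglyMeasurable.comp_snd
    have hchi : Measurable fun x : ℝ => chi a b n x := by
      unfold chi
      apply Finset.measurable_sum
      intro j _
      split_ifs
      · exact measurable_const.indicator (JJ_meas n j)
      · exact measurable_const
    have hph : Measurable fun x : ℝ × ℝ =>
        cexp (-I * (x.1 * ξ.1 + x.2 * ξ.2.1 + (x.1 ^ 2 + x.2 ^ 2) * ξ.2.2)) := by fun_prop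
    exact hph.aestronglyMeasurable.mul
      ((hchi.comp measurable_fst).aestronglyMeasurable.mul hcm)
  · exact hdom.norm
  · intro n
    refine ae_of_all _ fun x => ?_
    rw [norm_mul, ph_norm, one_mul, norm_mul, box_eq]
    simp only
    by_cases hx : x.1 ∈ Ioc (-1 / 2 : ℝ) (1 / 2)
    · rw [indicator_of_mem hx, one_mul]
      have := chi_norm (a := a) (b := b) n x.1
      nlinarith [norm_nonneg (c x.2)]
    · rw [chi_out n x.1 (fun h => hx ⟨by linarith [h.1], by linarith [h.2]⟩), norm_zero, zero_mul]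
      exact norm_nonneg _
  · have hae : ∀ᵐ x : ℝ × ℝ, x.1 ≠ b := by
      rw [Measure.volume_eq_prod]
      exact Measure.quasiMeasurePreserving_fst.ae (Measure.ae_ne volume b)
    filter_upwards [hae] with x hx
    apply tendsto_const_nhds.congr'
    filter_upwards [chi_lim ha hb x.1 hx] with n hn
    rw [hn, box_eq]

open Classical in
lemma box_le (ha : -1 / 2 ≤ a) (hb : b ≤ 1 / 2) (c : ℝ → ℂ) (hc : Integrable c)
    (ξ : ℝ × ℝ × ℝ) :
    ‖ext (box a b c) ξ‖ₑ ≤ ∑' m, ‖∑ j ∈ Finset.range (2 ^ m),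
      (if nw a b m j then ext (bx m j c) ξ else 0)‖ₑ := by
  have hZ : ∀ n j, ext (bx n j c) ξ =
      ext (bx (n + 1) (2 * j) c) ξ + ext (bx (n + 1) (2 * j + 1) c) ξ := by
    intro n j
    unfold bx
    rw [← ext_add (box_int _ _ _ hc) (box_int _ _ _ hc)]
    congr 1
    ext x
    simp only [box_eq]
    rw [← add_mul]
    congr 1
    have h1 := pt_mono (n + 1) (show 2 * j ≤ 2 * j + 1 by omega)
    have h2 := pt_mono (n + 1) (show 2 * j + 1 ≤ 2 * j + 1 + 1 by omega)
    rw [← pt_two n j, ← pt_two n (j + 1), show 2 * (j + 1) = 2 * j + 1 + 1 by ring,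
      ← Ioc_union_Ioc_eq_Ioc h1 h2, indicator_union_of_disjoint]
    rw [Set.disjoint_left]
    intro y hy hy'
    linarith [hy.2, hy'.1]
  refine le_of_tendsto' (ext_lim ha hb c hc ξ).enorm fun n => ?_
  rw [tele (fun n j => ext (bx n j c) ξ) hZ n]
  refine (enorm_sum_le _ _).trans ?_
  exact ENNReal.sum_le_tsum _

end Pool.Agent.Q167.RS
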