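import Mathlib
import Pool.Agent.Q167.RS.Dec
set_option autoImplicit false

/-! The square function of functions on strips with arbitrary overlap. -/

namespace Pool.Agent.Q167.RS

open MeasureTheory Set Complex Filter Topology
open scoped ENNReal NNReal
open Pool.Agent.H147R3.PE (ext)
open Pool.Agent.Q167.HM

/-- a family of functions, each on a strip -/
structure Fam {ι : Type} (a b : ι → ℝ) (c : ι → ℝ → ℂ) : Prop where
  lo : ∀ k, -1 / 2 ≤ a k
  hi : ∀ k, b k ≤ 1 / 2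
  meas : ∀ k, Measurable (c k)
  zero : ∀ k y, y ∉ Ioc (-1 / 2 : ℝ) (1 / 2) → c k y = 0
  int : ∀ k, Integrable (c k)

/-- the square of the norm -/
noncomputable def SS {ι : Type} [Fintype ι] (a b : ι → ℝ) (c : ι → ℝ → ℂ) (x : ℝ × ℝ) : ℝ≥0∞ :=
  ∑ k, ‖box (a k) (b k) (c k) x‖ₑ ^ 2

variable {ι : Type} [Fintype ι] {a b : ι → ℝ} {c : ι → ℝ → ℂ}

lemma SS_meas (h : Fam a b c) : Measurable (SS a b c) :=
  Finset.measurable_sum _ fun k _ => (box_meas _ _ _ (h.meas k)).enorm.pow_const 2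

lemma SS_zero (h : Fam a b c) (x : ℝ × ℝ) (hx : x ∉ Q0) : SS a b c x = 0 := by
  unfold SS
  apply Finset.sum_eq_zero
  intro k _
  rw [box_eq]
  simp only
  by_cases h1 : x.1 ∈ Ioc (a k) (b k)
  · have h2 : x.2 ∉ Ioc (-1 / 2 : ℝ) (1 / 2) := by
      intro h2
      apply hx
      exact ⟨⟨by linarith [h1.1, h.lo k], by linarith [h1.2, h.hi k]⟩, h2⟩
    rw [h.zero k _ h2]
    simp
  · rw [indicator_of_notMem h1]
    simp

open Classical in
/-- the part of one generation -/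
noncomputable def cg (a b : ι → ℝ) (c : ι → ℝ → ℂ) (m : ℕ) (k : ι) (j : ℕ) (y : ℝ) : ℂ :=
  if nw (a k) (b k) m j then c k y else 0

lemma cg_adm (h : Fam a b c) (m : ℕ) : Adm (SS a b c) m (cg a b c m) := by
  refine ⟨fun k j => ?_, fun k j => ?_, fun k j y hy => ?_, fun j x hx y => ?_⟩
  · unfold cg
    split_ifs
    · exact h.meas k
    · exact measurable_const
  · unfold cg
    split_ifs
    · exact h.int k
    · exact integrable_zero _ _ _
  · unfold cg
    split_ifs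
    · exact h.zero k y hy
    · rfl
  · unfold SS
    apply Finset.sum_le_sum
    intro k _
    unfold cg
    split_ifs with hn
    · rw [box_eq]
      simp only
      rw [indicator_of_mem (JJ_sub (nw_inn hn) hx), one_mul]
    · simp

open Classical in
lemma cg_ext (m : ℕ) (k : ι) (j : ℕ) (ξ : ℝ × ℝ × ℝ) :
    ‖ext (bx m j (cg a b c m k j)) ξ‖ₑ ^ 2 =
      if nw (a k) (b k) m j then ‖ext (bx m j (c k)) ξ‖ₑ ^ 2 else 0 := by
  by_cases hn : nw (a k) (b k) m j
  · rw [if_pos hn]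
    congr 3
    unfold cg
    simp only [if_pos hn]
  · rw [if_neg hn]
    have h0 : bx m j (cg a b c m k j) = fun _ => 0 := by
      unfold cg bx
      rw [box_eq]
      simp only [if_neg hn, mul_zero]
    rw [h0]
    unfold Pool.Agent.H147R3.PE.ext
    simp

lemma F_le (h : Fam a b c) (ρ : ℝ) (hρ : 0 < ρ) (ξ : ℝ × ℝ × ℝ) :
    ∑ k, ‖ext (box (a k) (b k) (c k)) ξ‖ₑ ^ 2 ≤
      (∑' m : ℕ, ENNReal.ofReal (ρ ^ m)) *
        ∑' m : ℕ, ENNReal.ofReal ((ρ ^ m)⁻¹) * (2 * Vn (cg a b c m) m ξ) := by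
  classical
  have h1 : ∀ k, ‖ext (box (a k) (b k) (c k)) ξ‖ₑ ^ 2 ≤
      (∑' m : ℕ, ENNReal.ofReal (ρ ^ m)) * ∑' m : ℕ, ENNReal.ofReal ((ρ ^ m)⁻¹) *
        (2 * ∑ j : Fin (2 ^ m), ‖ext (bx m j (cg a b c m k j)) ξ‖ₑ ^ 2) := by
    intro k
    have h2 := box_le (h.lo k) (h.hi k) (c k) (h.int k) ξ
    have h3 := Pool.Agent.H147R3.PE.wsum (fun m => ‖∑ j ∈ Finset.range (2 ^ m),
      (if nw (a k) (b k) m j then ext (bx m j (c k)) ξ else 0)‖ₑ) ρ hρ 2 (by norm_num)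
    calc ‖ext (box (a k) (b k) (c k)) ξ‖ₑ ^ 2 ≤ (∑' m, ‖∑ j ∈ Finset.range (2 ^ m),
          (if nw (a k) (b k) m j then ext (bx m j (c k)) ξ else 0)‖ₑ) ^ 2 := pow_le_pow_left' h2 2
      _ = (∑' m, ‖∑ j ∈ Finset.range (2 ^ m),
          (if nw (a k) (b k) m j then ext (bx m j (c k)) ξ else 0)‖ₑ) ^ (2 : ℝ) := by
          rw [ENNReal.rpow_ofNat]
      _ ≤ _ := h3
      _ ≤ _ := by
          rw [show (2 : ℝ) - 1 = 1 by norm_num, ENNReal.rpow_one]
          refine mul_le_mul_right (ENNReal.tsum_le_tsum fun m => ?_) _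
          rw [Real.rpow_neg_one, ENNReal.rpow_ofNat]
          refine mul_le_mul_right ((gen_bd (fun n j => ext (bx n j (c k)) ξ) m).trans
            (mul_le_mul_right (le_of_eq ?_) _)) _
          rw [Finset.sum_range]
          apply Finset.sum_congr rfl
          intro j _
          rw [cg_ext]
  calc _ ≤ ∑ k, (∑' m : ℕ, ENNReal.ofReal (ρ ^ m)) * ∑' m : ℕ, ENNReal.ofReal ((ρ ^ m)⁻¹) *
        (2 * ∑ j : Fin (2 ^ m), ‖ext (bx m j (cg a b c m k j)) ξ‖ₑ ^ 2) :=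
        Finset.sum_le_sum fun k _ => h1 k
    _ = _ := by
        rw [← Finset.mul_sum, ← Summable.tsum_finsetSum (fun _ _ => ENNReal.summable)]
        congr 1
        apply tsum_congr
        intro m
        unfold Vn
        rw [← Finset.mul_sum, ← Finset.mul_sum, Finset.sum_comm]

/-- **The square function estimate.** -/
theorem rs_main (q : ℝ) (hq : 3 < q) : ∃ C : ℝ≥0∞, C ≠ ⊤ ∧
    ∀ (ι : Type) [Fintype ι] [DecidableEq ι] (a b : ι → ℝ) (c : ι → ℝ → ℂ), Fam a b c →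
    ∫⁻ ξ, (∑ k, ‖ext (box (a k) (b k) (c k)) ξ‖ₑ ^ 2) ^ (q / 2) ≤
      C * ∫⁻ x, SS a b c x ^ (q / 2) := by
  obtain ⟨K, hK, hKK⟩ := Vn_q ((3 + q) / 2) q (by linarith) (by linarith)
  set α : ℝ := (q - (3 + q) / 2) / 2 with hα
  have hα0 : 0 < α := by
    rw [hα]
    linarith
  set p := q / 2 with hp
  have hp1 : 1 < p := by linarith
  set ρ : ℝ := (2 : ℝ) ^ (-(α / (2 * (2 * p - 1)))) with hρ
  have hρ0 : 0 < ρ := by positivity
  have hρ1 : ρ < 1 := by
    apply Real.rpow_lt_one_of_one_lt_of_neg (by norm_num)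
    have : 0 < α / (2 * (2 * p - 1)) := by
      apply div_pos hα0
      linarith
    linarith
  set G := ∑' k : ℕ, ENNReal.ofReal (ρ ^ k) with hG
  have hGt : G ≠ ⊤ := geo' ρ hρ0 hρ1
  set H := ∑' k : ℕ, ENNReal.ofReal (((2 : ℝ) ^ (-(α / 2))) ^ k) with hH
  have hHt : H ≠ ⊤ := by
    apply geo'
    · positivity
    · apply Real.rpow_lt_one_of_one_lt_of_neg (by norm_num)
      linarith
  have hG1 : G ^ p ≠ ⊤ := ENNReal.rpow_ne_top_of_nonneg (by linarith) hGt
  have hG2 : G ^ (p - 1) ≠ ⊤ := ENNReal.rpow_ne_top_of_nonneg (by linarith) hGt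
  refine ⟨G ^ p * (G ^ (p - 1) * (2 ^ p * (K * H))), ?_, ?_⟩
  · refine ENNReal.mul_ne_top hG1 (ENNReal.mul_ne_top hG2 (ENNReal.mul_ne_top
      (ENNReal.rpow_ne_top_of_nonneg (by linarith) (by simp)) (ENNReal.mul_ne_top hK hHt)))
  intro ι _ _ a b c h
  set W := ∫⁻ x, SS a b c x ^ p with hW
  have hVm : ∀ m, Measurable fun ξ => Vn (cg a b c m) m ξ := fun m => Vn_meas m (cg_adm h m)
  have h1 : ∀ ξ, (∑ k, ‖ext (box (a k) (b k) (c k)) ξ‖ₑ ^ 2) ^ p ≤
      G ^ p * (G ^ (p - 1) * ∑' m : ℕ, ENNReal.ofReal ((ρ ^ m) ^ (-(p - 1))) *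
        (ENNReal.ofReal ((ρ ^ m)⁻¹) ^ p * (2 ^ p * Vn (cg a b c m) m ξ ^ p))) := by
    intro ξ
    refine (ENNReal.rpow_le_rpow (F_le h ρ hρ0 ξ) (by linarith)).trans ?_
    rw [ENNReal.mul_rpow_of_nonneg _ _ (by linarith)]
    refine mul_le_mul_right ?_ _
    refine (Pool.Agent.H147R3.PE.wsum _ ρ hρ0 p hp1).trans (le_of_eq ?_)
    congr 1
    apply tsum_congr
    intro m
    rw [ENNReal.mul_rpow_of_nonneg _ _ (by linarith), ENNReal.mul_rpow_of_nonneg _ _ (by linarith)]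
  have hVp : ∀ m, Measurable fun ξ => ENNReal.ofReal ((ρ ^ m) ^ (-(p - 1))) *
      (ENNReal.ofReal ((ρ ^ m)⁻¹) ^ p * (2 ^ p * Vn (cg a b c m) m ξ ^ p)) := fun m =>
    (((((hVm m).pow_const p).const_mul _).const_mul _).const_mul _)
  calc _ ≤ ∫⁻ ξ, G ^ p * (G ^ (p - 1) * ∑' m : ℕ, ENNReal.ofReal ((ρ ^ m) ^ (-(p - 1))) *
        (ENNReal.ofReal ((ρ ^ m)⁻¹) ^ p * (2 ^ p * Vn (cg a b c m) m ξ ^ p))) :=
        lintegral_mono h1
    _ = G ^ p * (G ^ (p - 1) * ∑' m : ℕ, ENNReal.ofReal ((ρ ^ m) ^ (-(p - 1))) *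
        (ENNReal.ofReal ((ρ ^ m)⁻¹) ^ p * (2 ^ p * ∫⁻ ξ, Vn (cg a b c m) m ξ ^ p))) := by
        rw [lintegral_const_mul' _ _ hG1, lintegral_const_mul' _ _ hG2,
          lintegral_tsum fun m => (hVp m).aemeasurable]
        congr 2
        apply tsum_congr
        intro m
        rw [lintegral_const_mul _ ((((hVm m).pow_const p).const_mul _).const_mul _),
          lintegral_const_mul _ (((hVm m).pow_const p).const_mul _),
          lintegral_const_mul _ ((hVm m).pow_const p)]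
    _ ≤ G ^ p * (G ^ (p - 1) * ∑' m : ℕ, ENNReal.ofReal ((ρ ^ m) ^ (-(p - 1))) *
        (ENNReal.ofReal ((ρ ^ m)⁻¹) ^ p * (2 ^ p * (K * W * (((2 : ℝ≥0∞) ^ m)⁻¹) ^ α)))) := by
        refine mul_le_mul_right (mul_le_mul_right (ENNReal.tsum_le_tsum fun m =>
          mul_le_mul_right (mul_le_mul_right (mul_le_mul_right ?_ _) _) _) _) _
        exact hKK _ (SS_meas h) (SS_zero h) m ι _ (cg_adm h m)
    _ = _ := by
        have e2 : ∀ m : ℕ, ENNReal.ofReal ((ρ ^ m) ^ (-(p - 1))) *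
            (ENNReal.ofReal ((ρ ^ m)⁻¹) ^ p * (2 ^ p * (K * W * (((2 : ℝ≥0∞) ^ m)⁻¹) ^ α))) =
            (2 ^ p * (K * W)) * ENNReal.ofReal (((2 : ℝ) ^ (-(α / 2))) ^ m) := by
          intro m
          have e3 : (((2 : ℝ≥0∞) ^ m)⁻¹) ^ α = ENNReal.ofReal ((((2 : ℝ) ^ m)⁻¹) ^ α) := by
            rw [← ENNReal.ofReal_rpow_of_pos (by positivity),
              ENNReal.ofReal_inv_of_pos (by positivity), ENNReal.ofReal_pow (by norm_num)]
            simp
          have e5 : ENNReal.ofReal ((ρ ^ m)⁻¹) ^ p = ENNReal.ofReal (((ρ ^ m)⁻¹) ^ p) :=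
            ENNReal.ofReal_rpow_of_pos (by positivity)
          have e4 : (ρ ^ m) ^ (-(p - 1)) * (((ρ ^ m)⁻¹) ^ p * (((2 : ℝ) ^ m)⁻¹) ^ α) =
              ((2 : ℝ) ^ (-(α / 2))) ^ m := by
            have a1 : (ρ ^ m)⁻¹ = (2 : ℝ) ^ (α / (2 * (2 * p - 1)) * m) := by
              rw [hρ, ← Real.rpow_natCast, ← Real.rpow_mul (by norm_num),
                ← Real.rpow_neg (by norm_num)]
              congr 1
              ring
            have a2 : ρ ^ m = (2 : ℝ) ^ (-(α / (2 * (2 * p - 1)) * m)) := by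
              rw [hρ, ← Real.rpow_natCast, ← Real.rpow_mul (by norm_num)]
              congr 1
              ring
            have a3 : ((2 : ℝ) ^ m)⁻¹ = (2 : ℝ) ^ (-(m : ℝ)) := by
              rw [← Real.rpow_natCast, ← Real.rpow_neg (by norm_num)]
            have a4 : ((2 : ℝ) ^ (-(α / 2))) ^ m = (2 : ℝ) ^ (-(α / 2) * m) := by
              rw [← Real.rpow_natCast, ← Real.rpow_mul (by norm_num)]
            rw [a1, a2, a3, a4, ← Real.rpow_mul (by norm_num), ← Real.rpow_mul (by norm_num),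
              ← Real.rpow_mul (by norm_num), ← Real.rpow_add (by norm_num),
              ← Real.rpow_add (by norm_num)]
            congr 1
            have : 2 * p - 1 ≠ 0 := by linarith
            field_simp
            ring
          rw [e3, e5]
          calc _ = (2 ^ p * (K * W)) * (ENNReal.ofReal ((ρ ^ m) ^ (-(p - 1))) *
                (ENNReal.ofReal (((ρ ^ m)⁻¹) ^ p) *
                ENNReal.ofReal ((((2 : ℝ) ^ m)⁻¹) ^ α))) := by ring
            _ = _ := by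
                rw [← ENNReal.ofReal_mul (by positivity), ← ENNReal.ofReal_mul (by positivity), e4]
        simp only [e2]
        rw [ENNReal.tsum_mul_left]
        ring

end Pool.Agent.Q167.RS
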