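import Mathlib
import Pool.Agent.Q167.RS.Main
set_option autoImplicit false

/-! Symmetry in the two variables, integrability, sums of several strips. -/

namespace Pool.Agent.Q167.RS

open MeasureTheory Set Complex Filter Topology
open scoped ENNReal NNReal
open Pool.Agent.H147R3.PE (ext)
open Pool.Agent.Q167.HM

lemma box_lq (a b : ℝ) (g : ℝ → ℂ) (hg : Measurable g) (q : ℝ) (hq : 0 < q) :
    ∫⁻ x, ‖box a b g x‖ₑ ^ q = ENNReal.ofReal (b - a) * ∫⁻ y, ‖g y‖ₑ ^ q := by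
  rw [box_eq, Measure.volume_eq_prod]
  simp only [enorm_mul, ENNReal.mul_rpow_of_nonneg _ _ hq.le]
  rw [lintegral_prod_mul (f := fun x => ‖(Ioc a b).indicator (fun _ => (1 : ℂ)) x‖ₑ ^ q)
    (g := fun y => ‖g y‖ₑ ^ q)
    ((measurable_const.indicator measurableSet_Ioc).enorm.pow_const q).aemeasurable
    (hg.enorm.pow_const q).aemeasurable]
  congr 1
  have h1 : ∀ x, ‖(Ioc a b).indicator (fun _ => (1 : ℂ)) x‖ₑ ^ q =
      (Ioc a b).indicator (fun _ => (1 : ℝ≥0∞)) x := by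
    intro x
    by_cases h : x ∈ Ioc a b
    · rw [indicator_of_mem h, indicator_of_mem h]
      simp
    · rw [indicator_of_notMem h, indicator_of_notMem h]
      simp [hq]
  simp only [h1]
  rw [lintegral_indicator measurableSet_Ioc]
  simp

lemma int_of {a b : ℝ} (hab : a < b) {c : ℝ → ℂ} (hc : Measurable c)
    (h0 : ∀ y, y ∉ Ioc (-1 / 2 : ℝ) (1 / 2) → c y = 0) (q : ℝ) (hq : 1 < q)
    (hfin : ∫⁻ x, ‖box a b c x‖ₑ ^ q ≠ ⊤) : Integrable c := by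
  have hq0 : 0 < q := by linarith
  rw [box_lq a b c hc q hq0] at hfin
  have h1 : ∫⁻ y, ‖c y‖ₑ ^ q ≠ ⊤ := by
    intro h
    rw [h, ENNReal.mul_top] at hfin
    · exact hfin rfl
    · rw [Ne, ENNReal.ofReal_eq_zero]
      linarith
  refine ⟨hc.aestronglyMeasurable, ?_⟩
  unfold HasFiniteIntegral
  have h4 : ∫⁻ y, ‖c y‖ₑ = ∫⁻ y in Ioc (-1 / 2 : ℝ) (1 / 2), ‖c y‖ₑ := by
    rw [← lintegral_indicator measurableSet_Ioc]
    apply lintegral_congr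
    intro y
    by_cases hy : y ∈ Ioc (-1 / 2 : ℝ) (1 / 2)
    · rw [indicator_of_mem hy]
    · rw [indicator_of_notMem hy, h0 y hy, enorm_zero]
  rw [h4]
  refine (holder_set volume (fun y => ‖c y‖ₑ) hc.enorm (Ioc (-1 / 2 : ℝ) (1 / 2)) q hq).trans_lt ?_
  apply ENNReal.mul_lt_top
  · apply ENNReal.rpow_lt_top_of_nonneg (by positivity)
    exact ne_top_of_le_ne_top h1 (setLIntegral_le_lintegral _ _)
  · apply ENNReal.rpow_lt_top_of_nonneg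
    · have : 1 / q ≤ 1 := by
        rw [div_le_one hq0]
        exact hq.le
      linarith
    · rw [Real.volume_Ioc]
      exact ENNReal.ofReal_ne_top

/-- exchange of the two variables -/
def sw (ξ : ℝ × ℝ × ℝ) : ℝ × ℝ × ℝ := (ξ.2.1, ξ.1, ξ.2.2)

lemma sw_meas : Measurable sw := by
  unfold sw
  fun_prop

lemma ext_swap (f : ℝ × ℝ → ℂ) (ξ : ℝ × ℝ × ℝ) :
    ext (fun x => f (x.2, x.1)) ξ = ext f (sw ξ) := by
  unfold Pool.Agent.H147R3.PE.ext sw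
  rw [Measure.volume_eq_prod]
  have h := integral_prod_swap (μ := (volume : Measure ℝ)) (ν := (volume : Measure ℝ))
    (fun x : ℝ × ℝ => cexp (-I * (x.1 * ξ.1 + x.2 * ξ.2.1 + (x.1 ^ 2 + x.2 ^ 2) * ξ.2.2)) *
      f (x.2, x.1))
  rw [← h]
  congr 1
  ext x
  simp only [Prod.fst_swap, Prod.snd_swap, Prod.mk.eta]
  congr 2
  ring

lemma lint_sw (F : ℝ × ℝ × ℝ → ℝ≥0∞) (hF : Measurable F) : ∫⁻ ξ, F (sw ξ) = ∫⁻ ξ, F ξ := by
  have h1 := Pool.Agent.H728R3.SR.lint3 (fun x y t => F (x, y, t)) hF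
  have h2 := Pool.Agent.H728R3.SR.lint3 (fun x y t => F (y, x, t)) (hF.comp (by fun_prop))
  have e1 : ∫⁻ ξ : ℝ × ℝ × ℝ, F (sw ξ) = ∫⁻ ξ : ℝ × ℝ × ℝ, F (ξ.2.1, ξ.1, ξ.2.2) := rfl
  have e2 : ∫⁻ ξ : ℝ × ℝ × ℝ, F ξ = ∫⁻ ξ : ℝ × ℝ × ℝ, F (ξ.1, ξ.2.1, ξ.2.2) := rfl
  rw [e1, e2, h1, h2]
  apply lintegral_congr
  intro t
  rw [lintegral_lintegral_swap]
  exact (hF.comp (by fun_prop : Measurable fun p : ℝ × ℝ => (p.1, p.2, t))).aemeasurable

lemma sum_sq {B : ℕ} (z : Fin B → ℂ) : ‖∑ i, z i‖ₑ ^ 2 ≤ B * ∑ i, ‖z i‖ₑ ^ 2 := by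
  have h := Pool.Agent.H728R3.SR.jensen (ι := Fin B) 2 (by norm_num) (fun _ => 1) (fun i => ‖z i‖ₑ)
  simp only [one_mul, Finset.sum_const, Finset.card_univ, Fintype.card_fin, nsmul_eq_mul, mul_one,
    ENNReal.rpow_ofNat] at h
  rw [show (2 : ℝ) - 1 = 1 by norm_num, ENNReal.rpow_one] at h
  exact (pow_le_pow_left' (enorm_sum_le _ _) 2).trans h

end Pool.Agent.Q167.RS
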